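import Mathlib
import Pool.Agent.H97R2.BP.Defs
import Pool.Agent.H97R2.BP.Defs2

/-! # The data of the commutant -/

open scoped ComplexOrder InnerProductSpace ComplexConjugate TensorProduct
open Finset H759R2.Kad H710R2.DP

noncomputable section

namespace H97R2.BP

namespace ZZ473

theorem proj_gen {E : Type} [NormedAddCommGroup E] [InnerProductSpace ℝ E] [CompleteSpace E]
    (C : Set E) (h0 : (0 : E) ∈ C) (hadd : ∀ x ∈ C, ∀ y ∈ C, x + y ∈ C)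
    (hsmul : ∀ c : ℝ, ∀ x ∈ C, c • x ∈ C) (ξ : E) :
    ∃ p ∈ closure C, (∀ s ∈ C, ⟪ξ - p, s⟫_ℝ = 0) ∧ ⟪ξ - p, p⟫_ℝ = 0 := by
  let S₀ : Submodule ℝ E :=
    { carrier := C
      add_mem' := fun {x y} hx hy => hadd x hx y hy
      zero_mem' := h0
      smul_mem' := fun c x hx => hsmul c x hx }
  set S : Submodule ℝ E := S₀.topologicalClosure with hS
  have hcompl : CompleteSpace S := (Submodule.isClosed_topologicalClosure _).completeSpace_coe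
  have hproj : S.HasOrthogonalProjection := inferInstance
  obtain ⟨p, hp, hpη⟩ := hproj.exists_orthogonal ξ
  have horth : ∀ s ∈ S, ⟪ξ - p, s⟫_ℝ = 0 := by
    intro s hs
    rw [real_inner_comm]
    exact (Submodule.mem_orthogonal S _).mp hpη s hs
  exact ⟨p, hp, fun s hs => horth s (Submodule.le_topologicalClosure _ hs), horth p hp⟩

theorem proj_complex {K : Type} [NormedAddCommGroup K] [InnerProductSpace ℂ K] [CompleteSpace K]
    (C : Set K) (h0 : (0 : K) ∈ C) (hadd : ∀ x ∈ C, ∀ y ∈ C, x + y ∈ C)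
    (hsmul : ∀ c : ℝ, ∀ x ∈ C, (c : ℂ) • x ∈ C) (ξ : K) :
    ∃ p ∈ closure C, (∀ s ∈ C, (⟪ξ - p, s⟫_ℂ).re = 0) ∧ (⟪ξ - p, p⟫_ℂ).re = 0 :=
  @proj_gen K _ (InnerProductSpace.rclikeToReal ℂ K) _ C h0 hadd hsmul ξ

end ZZ473

theorem bp_t5 (h : Z_t5a) : Z_t5 := by
  intro K _ _ _ N Ω R A hcyc hT
  have hRe : ∀ ξ : K, ((2 : ℂ) • (1 : K →L[ℂ] K) - R) ξ = (2 : ℂ) • ξ - R ξ := fun ξ => rfl
  have hself : ∀ ξ : K, (⟪ξ, ξ⟫_ℂ).re = ‖ξ‖ ^ 2 := fun ξ => inner_self_eq_norm_sq (𝕜 := ℂ) ξ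
  have hnorm : ∀ ξ : K, (⟪ξ, (2 : ℂ) • ξ⟫_ℂ).re = 2 * ‖ξ‖ ^ 2 := by
    intro ξ
    rw [inner_smul_right, Complex.mul_re, hself]
    simp
  have hA2 : ∀ ξ : K, A ((2 : ℂ) • ξ) = (2 : ℂ) • A ξ := by
    intro ξ
    rw [map_smulₛₗ]
    congr 1
    exact Complex.conj_ofNat 2
  have hcc : ∀ x : K →L[ℂ] K, x ∈ N.commutant.commutant → x ∈ N := by
    intro x hx
    rwa [VonNeumannAlgebra.commutant_commutant] at hx
  refine ⟨?_, hT.asym, ?_, ?_, ?_, ?_, ?_, ?_, ?_, hT.om2, ?_, ?_, ?_⟩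
  · intro ξ η
    rw [hRe, hRe, inner_sub_left, inner_sub_right, inner_smul_left, inner_smul_right, hT.sa]
    congr 2
    exact Complex.conj_ofNat 2
  · intro ξ
    rw [hRe, inner_sub_right, Complex.sub_re, hnorm]
    linarith [hT.pos2 ξ]
  · intro ξ
    rw [hRe, inner_sub_right, Complex.sub_re, hnorm]
    linarith [hT.pos ξ]
  · intro ξ hξ
    rw [hRe, sub_eq_zero] at hξ
    exact hT.inj2 ξ hξ.symm
  · intro ξ hξ
    rw [hRe, sub_eq_self] at hξ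
    exact hT.inj ξ hξ
  · intro ξ
    rw [hRe, hRe, hT.sq, map_sub, map_smul]
    abel
  · intro ξ
    rw [hRe, hRe, map_sub, hA2, hT.com]
  · rw [hRe, hT.om, two_smul, add_sub_cancel_right]
  · intro x hx
    rw [hRe, sub_sub_cancel]
    exact hT.gr' x hx
  · intro x hx
    rw [hRe]
    exact hT.gr x (hcc x hx)
  · intro ξ hξ ε hε
    rw [hRe, sub_sub_cancel] at hξ
    obtain ⟨p, hp, horth, hpp⟩ := ZZ473.proj_complex
      {ξ : K | ∃ x ∈ N.commutant, star x = x ∧ x Ω = ξ}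
      ⟨0, zero_mem _, star_zero _, rfl⟩
      (by
        rintro _ ⟨x, hx, hx', rfl⟩ _ ⟨y, hy, hy', rfl⟩
        exact ⟨x + y, add_mem hx hy, by rw [star_add, hx', hy'], rfl⟩)
      (by
        rintro c _ ⟨x, hx, hx', rfl⟩
        refine ⟨(c : ℂ) • x, ?_, ?_, rfl⟩
        · exact N.commutant.toStarSubalgebra.smul_mem hx (c : ℂ)
        · rw [star_smul, hx']
          congr 1
          exact Complex.conj_ofReal c) ξ
    set η := ξ - p with hη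
    have h5 := h K N Ω hcyc η (fun x' hx' hsa => horth _ ⟨x', hx', hsa, rfl⟩)
    have hzero : ∀ x ∈ N, star x = -x → (⟪x Ω, ξ⟫_ℂ).re = 0 := by
      intro x hx hsx
      have h1 := hT.gr x hx
      rw [hsx] at h1
      have h2 : (-x : K →L[ℂ] K) Ω = -(x Ω) := rfl
      rw [h2, map_neg] at h1
      have h3 : (2 : ℂ) • x Ω = R (x Ω) - A (x Ω) := by
        rw [sub_eq_add_neg (R (x Ω)), h1]
        abel
      have h4 : ((⟪(2 : ℂ) • x Ω, ξ⟫_ℂ)).re = 2 * (⟪x Ω, ξ⟫_ℂ).re := by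
        rw [inner_smul_left, Complex.conj_ofNat 2]
        simp
      have h6 : (⟪A (x Ω), ξ⟫_ℂ).re = (⟪x Ω, R ξ⟫_ℂ).re := by
        rw [hT.asym, ← hξ, ← inner_conj_symm, Complex.conj_re]
      rw [h3, inner_sub_left, Complex.sub_re, hT.sa, h6, sub_self] at h4
      linarith
    have hre : (⟪η, ξ⟫_ℂ).re = 0 := by
      by_contra hne
      have hpos : 0 < |(⟪η, ξ⟫_ℂ).re| := abs_pos.mpr hne
      have hξ0 : 0 < ‖ξ‖ + 1 := by positivity
      obtain ⟨x, hx, hsx, hlt⟩ := h5 (|(⟪η, ξ⟫_ℂ).re| / (‖ξ‖ + 1)) (by positivity)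
      have h1 : (⟪η, ξ⟫_ℂ).re = -(⟪x Ω - η, ξ⟫_ℂ).re := by
        rw [inner_sub_left (x Ω) η ξ, Complex.sub_re, hzero x hx hsx]
        ring
      have h2 : |(⟪η, ξ⟫_ℂ).re| ≤ ‖x Ω - η‖ * ‖ξ‖ := by
        rw [h1, abs_neg]
        exact (Complex.abs_re_le_norm _).trans (norm_inner_le_norm _ _)
      have h3 : ‖x Ω - η‖ * ‖ξ‖ ≤ ‖x Ω - η‖ * (‖ξ‖ + 1) :=
        mul_le_mul_of_nonneg_left (by linarith) (norm_nonneg _)
      have h4 : ‖x Ω - η‖ * (‖ξ‖ + 1) < |(⟪η, ξ⟫_ℂ).re| := by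
        rw [lt_div_iff₀ hξ0] at hlt
        exact hlt
      linarith
    have hη0 : η = 0 := by
      have h1 : ‖η‖ ^ 2 = 0 := by
        rw [← hself]
        have h3 : ⟪η, η⟫_ℂ = ⟪η, ξ⟫_ℂ - ⟪η, p⟫_ℂ := by
          rw [← inner_sub_right]
        rw [h3, Complex.sub_re, hre, hpp, sub_zero]
      exact norm_eq_zero.mp ((pow_eq_zero_iff two_ne_zero).mp h1)
    have h1 : ξ = p := sub_eq_zero.mp hη0
    rw [← h1] at hp
    obtain ⟨s, ⟨x, hx, hsx, rfl⟩, hd⟩ := Metric.mem_closure_iff.mp hp ε hε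
    refine ⟨x, hx, hsx, ?_⟩
    rw [dist_comm, dist_eq_norm] at hd
    exact hd

end H97R2.BP
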